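import Mathlib

/-! # Lattice points of the dilates of a simplex `conv (e_1, ..., e_d, - ∑ q_i e_i)` -/

set_option autoImplicit false

namespace Pool.Agent.T2H79.Ehr

open Finset

variable {d : ℕ}

/-- `1 + ∑ q_i` -/
def QQ (q : Fin d → ℕ) : ℕ := 1 + ∑ i, q i

/-- `∑ ⌊q_i m / Q⌋` -/
def WW (q : Fin d → ℕ) (m : ℕ) : ℕ := ∑ i, q i * m / QQ q

/-- the weight `m - ∑ ⌊q_i m / Q⌋` -/
def wt (q : Fin d → ℕ) (m : ℕ) : ℕ := m - WW q m

lemma QQ_pos (q : Fin d → ℕ) : 0 < QQ q := by unfold QQ; omega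

lemma WW_le (q : Fin d → ℕ) (m : ℕ) : WW q m ≤ m := by
  have h1 : QQ q * WW q m ≤ QQ q * m := by
    unfold WW
    rw [mul_sum]
    calc ∑ i, QQ q * (q i * m / QQ q) ≤ ∑ i, q i * m := by
          apply sum_le_sum
          intro i _
          exact Nat.mul_div_le _ _
      _ = (∑ i, q i) * m := by rw [sum_mul]
      _ ≤ QQ q * m := by
          apply Nat.mul_le_mul_right
          unfold QQ
          omega
  exact Nat.le_of_mul_le_mul_left h1 (QQ_pos q)

lemma WW_add (q : Fin d → ℕ) (b k : ℕ) : WW q (b + QQ q * k) = WW q b + (∑ i, q i) * k := by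
  unfold WW
  rw [sum_mul, ← sum_add_distrib]
  apply sum_congr rfl
  intro i _
  have h1 : q i * (b + QQ q * k) = q i * b + QQ q * (q i * k) := by ring
  rw [h1, Nat.add_mul_div_left _ _ (QQ_pos q)]

/-- the integer points considered -/
def latt (q : Fin d → ℕ) (t : ℕ) : Set (Fin d → ℤ) :=
  {z | 0 ≤ (t : ℤ) - ∑ i, z i ∧ ∀ i, 0 ≤ (QQ q : ℤ) * z i + q i * (t - ∑ j, z j)}

/-- the parametrisation of the lattice points -/
def par (q : Fin d → ℕ) (x : ℕ × (Fin (d + 1) → ℕ)) : Fin d → ℤ :=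
  fun i => (x.2 i.succ : ℤ) - (q i * (x.1 + QQ q * x.2 0) / QQ q : ℕ)

/-- the parameters -/
noncomputable def pars (q : Fin d → ℕ) (t : ℕ) : Finset (ℕ × (Fin (d + 1) → ℕ)) := by
  classical
  exact (range (QQ q)).biUnion (fun b => if wt q b ≤ t then
    ((univ : Finset (Fin (d + 1))).piAntidiag (t - wt q b)).image (fun u => (b, u)) else ∅)

lemma mem_pars (q : Fin d → ℕ) (t : ℕ) (x : ℕ × (Fin (d + 1) → ℕ)) :
    x ∈ pars q t ↔ x.1 < QQ q ∧ ∑ i, x.2 i + wt q x.1 = t := by
  classical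
  unfold pars
  rw [mem_biUnion]
  constructor
  · rintro ⟨b, hb, hx⟩
    split_ifs at hx with hw
    · rw [mem_image] at hx
      obtain ⟨u, hu, rfl⟩ := hx
      rw [mem_piAntidiag] at hu
      refine ⟨by simpa using hb, ?_⟩
      have h3 := hu.1
      change univ.sum u + wt q b = t
      omega
    · simp at hx
  · rintro ⟨h1, h2⟩
    refine ⟨x.1, by simpa using h1, ?_⟩
    rw [if_pos (by omega), mem_image]
    refine ⟨x.2, ?_, rfl⟩
    rw [mem_piAntidiag]
    change univ.sum x.2 + wt q x.1 = t at h2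
    exact ⟨by omega, fun i _ => mem_univ i⟩

lemma sum_par (q : Fin d → ℕ) (t : ℕ) (x : ℕ × (Fin (d + 1) → ℕ)) (hx : x ∈ pars q t) :
    ∑ i, par q x i = (t : ℤ) - (x.1 + QQ q * x.2 0 : ℕ) := by
  rw [mem_pars] at hx
  obtain ⟨h1, h2⟩ := hx
  unfold par
  rw [sum_sub_distrib]
  have h3 : (∑ i, ((q i * (x.1 + QQ q * x.2 0) / QQ q : ℕ) : ℤ)) =
      ((WW q x.1 + (∑ i, q i) * x.2 0 : ℕ) : ℤ) := by
    rw [← WW_add, WW]
    push_cast
    rfl
  rw [h3]
  rw [Fin.sum_univ_succ] at h2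
  have h4 := WW_le q x.1
  have h5 : wt q x.1 + WW q x.1 = x.1 := by unfold wt; omega
  have h6 : (QQ q : ℤ) = 1 + ∑ i, (q i : ℤ) := by unfold QQ; push_cast; ring
  have h7 : (x.2 0 : ℤ) + ∑ i : Fin d, (x.2 i.succ : ℤ) + wt q x.1 = t := by exact_mod_cast h2
  have h8 : (wt q x.1 : ℤ) + WW q x.1 = x.1 := by exact_mod_cast h5
  push_cast
  rw [h6]
  linarith

lemma par_inj (q : Fin d → ℕ) (t : ℕ) : Set.InjOn (par q) (pars q t) := by
  intro x hx y hy hxy
  have h1 := sum_par q t x hx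
  have h2 := sum_par q t y hy
  rw [hxy, h2] at h1
  have h3 : x.1 + QQ q * x.2 0 = y.1 + QQ q * y.2 0 := by
    have : ((y.1 + QQ q * y.2 0 : ℕ) : ℤ) = (x.1 + QQ q * x.2 0 : ℕ) := by linarith
    exact_mod_cast this.symm
  have hx' := (mem_pars q t x).1 hx
  have hy' := (mem_pars q t y).1 hy
  have h4 : x.1 = y.1 := by
    have e := congrArg (fun z => z % QQ q) h3
    simp only [Nat.add_mul_mod_self_left] at e
    rwa [Nat.mod_eq_of_lt hx'.1, Nat.mod_eq_of_lt hy'.1] at e
  have h5 : x.2 0 = y.2 0 := by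
    rw [h4] at h3
    exact Nat.eq_of_mul_eq_mul_left (QQ_pos q) (by omega)
  apply Prod.ext h4
  funext i
  refine Fin.cases h5 (fun j => ?_) i
  have e := congrFun hxy j
  unfold par at e
  rw [h4, h5] at e
  have : (x.2 j.succ : ℤ) = y.2 j.succ := by linarith
  exact_mod_cast this

lemma par_image (q : Fin d → ℕ) (t : ℕ) : par q '' (pars q t) = latt q t := by
  ext z
  constructor
  · rintro ⟨x, hx, rfl⟩
    have hs := sum_par q t x hx
    refine ⟨?_, fun i => ?_⟩
    · rw [hs]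
      have : (0 : ℤ) ≤ (x.1 + QQ q * x.2 0 : ℕ) := Int.natCast_nonneg _
      linarith
    · rw [hs]
      unfold par
      set M : ℕ := x.1 + QQ q * x.2 0 with hM
      have h1 : QQ q * (q i * M / QQ q) ≤ q i * M := Nat.mul_div_le _ _
      have h2 : (QQ q : ℤ) * ((q i * M / QQ q : ℕ) : ℤ) ≤ q i * M := by exact_mod_cast h1
      have h3 : (0 : ℤ) ≤ (QQ q : ℤ) * x.2 i.succ := by positivity
      have h4 : (QQ q : ℤ) * ((x.2 i.succ : ℤ) - ((q i * M / QQ q : ℕ) : ℤ)) +
          q i * ((t : ℤ) - ((t : ℤ) - (M : ℤ))) =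
          (QQ q : ℤ) * x.2 i.succ + (q i * M - (QQ q : ℤ) * ((q i * M / QQ q : ℕ) : ℤ)) := by ring
      rw [h4]
      linarith
  · rintro ⟨h0, hz⟩
    obtain ⟨m, hm⟩ := Int.eq_ofNat_of_zero_le h0
    rw [hm] at hz
    have hy : ∀ i, 0 ≤ z i + ((q i * m / QQ q : ℕ) : ℤ) := by
      intro i
      have h1 := hz i
      have h2 : q i * m < QQ q * (q i * m / QQ q + 1) := by
        have := Nat.lt_mul_div_succ (q i * m) (QQ_pos q)
        exact this
      have h3 : ((q i : ℤ) * m) < QQ q * (((q i * m / QQ q : ℕ) : ℤ) + 1) := by exact_mod_cast h2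
      have h4 : (0 : ℤ) < QQ q * (z i + ((q i * m / QQ q : ℕ) : ℤ) + 1) := by
        have : (QQ q : ℤ) * (z i + ((q i * m / QQ q : ℕ) : ℤ) + 1) =
          QQ q * z i + QQ q * (((q i * m / QQ q : ℕ) : ℤ) + 1) := by ring
        rw [this]
        linarith
      have h5 : (0 : ℤ) < QQ q := by exact_mod_cast QQ_pos q
      have h6 := (pos_iff_pos_of_mul_pos h4).1 h5
      linarith
    choose y hy using fun i => Int.eq_ofNat_of_zero_le (hy i)
    refine ⟨(m % QQ q, Fin.cons (m / QQ q) y), ?_, ?_⟩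
    · rw [mem_coe, mem_pars]
      refine ⟨Nat.mod_lt _ (QQ_pos q), ?_⟩
      rw [Fin.sum_univ_succ]
      simp only [Fin.cons_zero, Fin.cons_succ]
      have h1 : m % QQ q + QQ q * (m / QQ q) = m := Nat.mod_add_div m (QQ q)
      have h2 : WW q m = WW q (m % QQ q) + (∑ i, q i) * (m / QQ q) := by
        rw [← WW_add, h1]
      have h3 : ((∑ i, y i : ℕ) : ℤ) = ∑ i, z i + WW q m := by
        push_cast
        rw [WW]
        push_cast
        rw [← sum_add_distrib]
        apply sum_congr rfl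
        intro i _
        rw [← hy i]
        push_cast
        rfl
      have h4 := WW_le q (m % QQ q)
      have h5 : (wt q (m % QQ q) : ℤ) = (m % QQ q : ℕ) - WW q (m % QQ q) := by
        unfold wt
        push_cast [Nat.cast_sub h4]
        ring
      have h6 : ((m % QQ q : ℕ) : ℤ) + QQ q * ((m / QQ q : ℕ) : ℤ) = m := by exact_mod_cast h1
      have h7 : (QQ q : ℤ) = 1 + ((∑ i, q i : ℕ) : ℤ) := by unfold QQ; push_cast; ring
      have h8 : (WW q m : ℤ) = WW q (m % QQ q) + ((∑ i, q i : ℕ) : ℤ) * ((m / QQ q : ℕ) : ℤ) := by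
        exact_mod_cast h2
      have h9 : (t : ℤ) - ∑ i, z i = m := hm
      have h10 : (((m / QQ q + ∑ i, y i + wt q (m % QQ q) : ℕ)) : ℤ) = t := by
        rw [Nat.cast_add, Nat.cast_add, h3, h5, h8]
        rw [h7] at h6
        have : (1 + ((∑ i, q i : ℕ) : ℤ)) * ((m / QQ q : ℕ) : ℤ) =
          ((m / QQ q : ℕ) : ℤ) + ((∑ i, q i : ℕ) : ℤ) * ((m / QQ q : ℕ) : ℤ) := by ring
        rw [this] at h6
        linarith
      exact_mod_cast h10
    · funext i
      unfold par
      simp only [Fin.cons_zero, Fin.cons_succ]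
      rw [Nat.mod_add_div m (QQ q), show ((y i : ℕ) : ℤ) = z i + ((q i * m / QQ q : ℕ) : ℤ) from
        (hy i).symm]
      exact add_sub_cancel_right _ _

lemma card_pi (e n : ℕ) : ((univ : Finset (Fin (e + 1))).piAntidiag n).card =
    (n + e).choose e := by
  classical
  have h1 : ((univ : Finset (Fin (e + 1))).piAntidiag n).card =
      ((univ : Finset (Fin (e + 1))).finsuppAntidiag n).card := by
    symm
    apply card_bij (fun (f : Fin (e + 1) →₀ ℕ) _ => (f : Fin (e + 1) → ℕ))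
    · intro f hf
      rw [mem_finsuppAntidiag] at hf
      rw [mem_piAntidiag]
      exact ⟨hf.1, fun i _ => mem_univ i⟩
    · intro f _ g _ hfg
      exact DFunLike.coe_injective hfg
    · intro u hu
      rw [mem_piAntidiag] at hu
      refine ⟨Finsupp.equivFunOnFinite.symm u, ?_, by simp⟩
      rw [mem_finsuppAntidiag]
      exact ⟨by simpa using hu.1, subset_univ _⟩
  rw [h1, card_finsuppAntidiag_nat_eq_choose, card_univ, Fintype.card_fin]
  have h2 : e + 1 + n - 1 = n + e := by omega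
  rw [h2, Nat.choose_symm_add]

/-- The number of lattice points. -/
theorem ncard_latt (q : Fin d → ℕ) (t : ℕ) :
    (latt q t).ncard = ∑ b ∈ range (QQ q),
      if wt q b ≤ t then (t - wt q b + d).choose d else 0 := by
  classical
  rw [← par_image, (par_inj q t).ncard_image, Set.ncard_coe_finset]
  unfold pars
  rw [card_biUnion]
  · apply sum_congr rfl
    intro b _
    split_ifs
    · rw [card_image_of_injective _ (Prod.mk_right_injective b), card_pi]
    · rfl
  · intro b _ c _ hbc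
    rw [Function.onFun, disjoint_left]
    intro x hx hy
    apply hbc
    split_ifs at hx hy
    · rw [mem_image] at hx hy
      obtain ⟨u, _, rfl⟩ := hx
      obtain ⟨v, _, hv⟩ := hy
      exact (congrArg Prod.fst hv).symm
    all_goals simp at hx hy

end Pool.Agent.T2H79.Ehr
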