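import Pool.Agent.T2H79.Ehr.Count

/-! # The real simplex and its lattice points -/

set_option autoImplicit false

namespace Pool.Agent.T2H79.Ehr

open Finset
open scoped Pointwise

variable {d : ℕ}

/-- the vertices -/
def verts (q : Fin d → ℕ) : Set (Fin d → ℝ) :=
  insert (fun i => -(q i : ℝ)) (Set.range fun i => Pi.single i (1 : ℝ))

/-- the simplex by inequalities -/
def ineq (q : Fin d → ℕ) : Set (Fin d → ℝ) :=
  {y | 0 ≤ 1 - ∑ i, y i ∧ ∀ i, 0 ≤ (QQ q : ℝ) * y i + q i * (1 - ∑ j, y j)}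

lemma convex_ineq (q : Fin d → ℕ) : Convex ℝ (ineq q) := by
  intro x hx y hy a b ha hb hab
  have hs : ∑ i, (a • x + b • y) i = a * ∑ i, x i + b * ∑ i, y i := by
    rw [mul_sum, mul_sum, ← sum_add_distrib]
    rfl
  refine ⟨?_, ?_⟩
  · rw [hs]
    have e : 1 - (a * ∑ i, x i + b * ∑ i, y i) = a * (1 - ∑ i, x i) + b * (1 - ∑ i, y i) := by
      linear_combination (-1 : ℝ) * hab
    rw [e]
    exact add_nonneg (mul_nonneg ha hx.1) (mul_nonneg hb hy.1)
  · intro i
    rw [hs]
    have e : (QQ q : ℝ) * (a • x + b • y) i + q i * (1 - (a * ∑ i, x i + b * ∑ i, y i)) =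
        a * ((QQ q : ℝ) * x i + q i * (1 - ∑ i, x i)) +
          b * ((QQ q : ℝ) * y i + q i * (1 - ∑ i, y i)) := by
      simp only [Pi.add_apply, Pi.smul_apply, smul_eq_mul]
      linear_combination (-(q i : ℝ)) * hab
    rw [e]
    exact add_nonneg (mul_nonneg ha (hx.2 i)) (mul_nonneg hb (hy.2 i))

lemma cast_QQ (q : Fin d → ℕ) : (QQ q : ℝ) = 1 + ∑ i, (q i : ℝ) := by
  unfold QQ
  push_cast
  rfl

lemma verts_sub (q : Fin d → ℕ) : verts q ⊆ ineq q := by
  intro v hv
  rcases hv with rfl | ⟨i, rfl⟩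
  · have e : 1 - ∑ i, -(q i : ℝ) = QQ q := by
      rw [sum_neg_distrib, cast_QQ]; ring
    refine ⟨?_, ?_⟩
    · rw [e]; positivity
    · intro i
      rw [e]
      apply le_of_eq
      ring
  · have e : ∑ j, (Pi.single i (1 : ℝ) : Fin d → ℝ) j = 1 := by
      simp [Pi.single_apply]
    refine ⟨?_, ?_⟩
    · change 0 ≤ 1 - ∑ j, (Pi.single i (1 : ℝ) : Fin d → ℝ) j
      rw [e]; norm_num
    · intro j
      change 0 ≤ (QQ q : ℝ) * (Pi.single i (1 : ℝ) : Fin d → ℝ) j +
        q j * (1 - ∑ j, (Pi.single i (1 : ℝ) : Fin d → ℝ) j)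
      rw [e, Pi.single_apply]
      split_ifs <;> simp

lemma ineq_sub (q : Fin d → ℕ) : ineq q ⊆ convexHull ℝ (verts q) := by
  intro y hy
  obtain ⟨h1, h2⟩ := hy
  have hQ : (0 : ℝ) < QQ q := by exact_mod_cast QQ_pos q
  set l0 : ℝ := (1 - ∑ j, y j) / QQ q with hl0
  have hl0' : 0 ≤ l0 := div_nonneg h1 hQ.le
  have hl0Q : QQ q * l0 = 1 - ∑ j, y j := by
    rw [hl0]; field_simp
  let w : Option (Fin d) → ℝ := fun o => o.elim l0 (fun i => y i + q i * l0)
  let z : Option (Fin d) → (Fin d → ℝ) := fun o => o.elim (fun i => -(q i : ℝ))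
    (fun i => Pi.single i (1 : ℝ))
  have hw : ∀ o ∈ (univ : Finset (Option (Fin d))), 0 ≤ w o := by
    intro o _
    cases o with
    | none => exact hl0'
    | some i =>
      change 0 ≤ y i + q i * l0
      have h3 := h2 i
      rw [← hl0Q] at h3
      have h4 : 0 ≤ (QQ q : ℝ) * (y i + q i * l0) := by
        calc (0 : ℝ) ≤ QQ q * y i + q i * (QQ q * l0) := h3
          _ = _ := by ring
      exact nonneg_of_mul_nonneg_right h4 hQ
  have hsum : ∑ o, w o = 1 := by
    rw [Fintype.sum_option]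
    change l0 + ∑ i, (y i + q i * l0) = 1
    rw [sum_add_distrib, ← sum_mul]
    have e : (∑ i, (q i : ℝ)) = QQ q - 1 := by rw [cast_QQ]; ring
    rw [e]
    linear_combination hl0Q
  have hz : ∀ o ∈ (univ : Finset (Option (Fin d))), z o ∈ convexHull ℝ (verts q) := by
    intro o _
    apply subset_convexHull
    cases o with
    | none => exact Set.mem_insert _ _
    | some i => exact Set.mem_insert_of_mem _ ⟨i, rfl⟩
  have hmem := (convex_convexHull ℝ (verts q)).sum_mem hw hsum hz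
  have he : ∑ o, w o • z o = y := by
    rw [Fintype.sum_option]
    funext j
    change (l0 • (fun i => -(q i : ℝ)) + ∑ i, (y i + q i * l0) • (Pi.single i (1 : ℝ) : Fin d → ℝ)) j
      = y j
    rw [Pi.add_apply, Finset.sum_apply]
    simp only [Pi.smul_apply, smul_eq_mul, Pi.single_apply, mul_ite, mul_one, mul_zero]
    rw [Finset.sum_ite_eq]
    simp only [mem_univ, if_true]
    ring
  rw [he] at hmem
  exact hmem

lemma hull_eq (q : Fin d → ℕ) : convexHull ℝ (verts q) = ineq q :=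
  Set.Subset.antisymm (convexHull_min (verts_sub q) (convex_ineq q)) (ineq_sub q)

lemma mem_dilate (q : Fin d → ℕ) (t : ℕ) (z : Fin d → ℤ) :
    (fun i => (z i : ℝ)) ∈ (t : ℝ) • convexHull ℝ (verts q) ↔ z ∈ latt q t := by
  rw [hull_eq]
  have key : z ∈ latt q t ↔ (0 ≤ (t : ℝ) - ∑ i, (z i : ℝ) ∧
      ∀ i, 0 ≤ (QQ q : ℝ) * z i + q i * (t - ∑ j, (z j : ℝ))) := by
    unfold latt
    rw [Set.mem_ofPred_eq]
    constructor
    · rintro ⟨h1, h2⟩
      refine ⟨by exact_mod_cast h1, fun i => ?_⟩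
      exact_mod_cast h2 i
    · rintro ⟨h1, h2⟩
      refine ⟨by exact_mod_cast h1, fun i => ?_⟩
      exact_mod_cast h2 i
  rw [key]
  constructor
  · rintro ⟨y, ⟨hy1, hy2⟩, hyz⟩
    have hz : ∀ i, (z i : ℝ) = t * y i := by
      intro i
      have := congrFun hyz i
      simpa using this.symm
    have hs : ∑ i, (z i : ℝ) = t * ∑ i, y i := by
      rw [mul_sum]
      exact sum_congr rfl (fun i _ => hz i)
    have ht : (0 : ℝ) ≤ t := Nat.cast_nonneg t
    rw [hs]
    refine ⟨?_, ?_⟩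
    · have e : (t : ℝ) - t * ∑ i, y i = t * (1 - ∑ i, y i) := by ring
      rw [e]
      exact mul_nonneg ht hy1
    · intro i
      rw [hz i]
      have e : (QQ q : ℝ) * (t * y i) + q i * (t - t * ∑ i, y i) =
        t * (QQ q * y i + q i * (1 - ∑ i, y i)) := by ring
      rw [e]
      exact mul_nonneg ht (hy2 i)
  · rintro ⟨h1, h2⟩
    rcases Nat.eq_zero_or_pos t with ht | ht
    · subst ht
      have h3 : 0 ≤ ∑ i, ((QQ q : ℝ) * z i + q i * ((0 : ℕ) - ∑ j, (z j : ℝ))) :=
        sum_nonneg (fun i _ => h2 i)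
      rw [sum_add_distrib, ← mul_sum, ← sum_mul] at h3
      have e : (∑ i, (q i : ℝ)) = QQ q - 1 := by rw [cast_QQ]; ring
      rw [e] at h3
      have h4 : ∑ j, (z j : ℝ) = 0 := by
        push_cast at h1 h3
        linarith
      have h5 : ∀ i ∈ univ, (0 : ℝ) ≤ z i := by
        intro i _
        have := h2 i
        rw [h4] at this
        have hQ : (0 : ℝ) < QQ q := by exact_mod_cast QQ_pos q
        have h6 : 0 ≤ (QQ q : ℝ) * z i := by
          simpa using this
        exact nonneg_of_mul_nonneg_right h6 hQ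
      have h6 := (sum_eq_zero_iff_of_nonneg h5).1 h4
      refine ⟨fun i => -(q i : ℝ), verts_sub q (Set.mem_insert _ _), ?_⟩
      funext i
      have := h6 i (mem_univ i)
      simp [this]
    · have ht' : (0 : ℝ) < t := by exact_mod_cast ht
      refine ⟨fun i => (z i : ℝ) / t, ⟨?_, ?_⟩, ?_⟩
      · rw [← sum_div]
        have e : 1 - (∑ i, (z i : ℝ)) / t = (t - ∑ i, (z i : ℝ)) / t := by
          field_simp
        rw [e]
        exact div_nonneg h1 ht'.le
      · intro i
        rw [← sum_div]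
        have e : (QQ q : ℝ) * ((z i : ℝ) / t) + q i * (1 - (∑ i, (z i : ℝ)) / t) =
            (QQ q * z i + q i * (t - ∑ i, (z i : ℝ))) / t := by
          field_simp
        change 0 ≤ (QQ q : ℝ) * ((z i : ℝ) / t) + q i * (1 - (∑ i, (z i : ℝ)) / t)
        rw [e]
        exact div_nonneg (h2 i) ht'.le
      · funext i
        change (t : ℝ) * ((z i : ℝ) / t) = z i
        field_simp

end Pool.Agent.T2H79.Ehr
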