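import Pool.Agent.T2H79.Ehr.Count

/-! # The histogram of the weights for the base 14 simplex of dimension 5 -/

set_option autoImplicit false

namespace Pool.Agent.T2H79.Ehr

open Finset

/-- the weights `13, 13 * 14, ...` -/
def q5 : Fin 5 → ℕ := fun i => 13 * 14 ^ (i : ℕ)

lemma QQ5 : QQ q5 = 537824 := by decide

/-- the weight, computed -/
def wf (b : ℕ) : ℕ :=
  b - (13 * b / 14 + 13 * b / 196 + 13 * b / 2744 + 13 * b / 38416 + 13 * b / 537824)

lemma wt5 (b : ℕ) : wt q5 b = wf b := by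
  have h : ∀ i : Fin 5, q5 i * b / 537824 = 13 * b / (14 ^ (5 - (i : ℕ))) := by
    intro i
    unfold q5
    have h1 : 13 * 14 ^ (i : ℕ) * b = (13 * b) * 14 ^ (i : ℕ) := by ring
    have h2 : 537824 = 14 ^ (5 - (i : ℕ)) * 14 ^ (i : ℕ) := by
      rw [← pow_add, Nat.sub_add_cancel (by omega)]
      norm_num
    rw [h1, h2, Nat.mul_div_mul_right _ _ (by positivity)]
  unfold wt WW
  rw [QQ5]
  simp only [h, Fin.sum_univ_five]
  unfold wf
  norm_num
  ring_nf

/-- the weight without the leading digit -/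
def wf4 (b : ℕ) : ℕ := b - (13 * b / 14 + 13 * b / 196 + 13 * b / 2744 + 13 * b / 38416)

lemma div_digit (a b k m : ℕ) (hm : 0 < m) : 13 * (m * k * a + b) / m = 13 * k * a + 13 * b / m := by
  have h : 13 * (m * k * a + b) = 13 * b + m * (13 * k * a) := by ring
  rw [h, Nat.add_mul_div_left _ _ hm]
  ring

lemma sum4_le (b : ℕ) : 13 * b / 14 + 13 * b / 196 + 13 * b / 2744 + 13 * b / 38416 ≤ b := by
  omega

lemma sum5_le (b : ℕ) :
    13 * b / 14 + 13 * b / 196 + 13 * b / 2744 + 13 * b / 38416 + 13 * b / 537824 ≤ b := by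
  omega

lemma wf_digit (a b : ℕ) (ha : a < 14) (hb : b < 38416) :
    wf (38416 * a + b) = wf4 b + if 13 * b / 38416 < a then 1 else 0 := by
  have e1 : 13 * (38416 * a + b) / 14 = 35672 * a + 13 * b / 14 := div_digit a b 2744 14 (by norm_num)
  have e2 : 13 * (38416 * a + b) / 196 = 2548 * a + 13 * b / 196 :=
    div_digit a b 196 196 (by norm_num)
  have e3 : 13 * (38416 * a + b) / 2744 = 182 * a + 13 * b / 2744 :=
    div_digit a b 14 2744 (by norm_num)
  have e4 : 13 * (38416 * a + b) / 38416 = 13 * a + 13 * b / 38416 :=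
    div_digit a b 1 38416 (by norm_num)
  have e5 : 13 * (38416 * a + b) / 537824 = (13 * a + 13 * b / 38416) / 14 := by
    rw [← e4, Nat.div_div_eq_div_mul]
  have s4 := sum4_le b
  have s5 := sum5_le (38416 * a + b)
  have hc : 13 * b / 38416 < 13 := by omega
  unfold wf wf4
  rw [e1, e2, e3, e4, e5] at *
  generalize 13 * b / 14 = x1 at *
  generalize 13 * b / 196 = x2 at *
  generalize 13 * b / 2744 = x3 at *
  generalize 13 * b / 38416 = c at *
  clear e1 e2 e3 e4 e5
  have hd : (13 * a + c) / 14 = a - if c < a then 1 else 0 := by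
    split_ifs with h <;> omega
  rw [hd] at *
  split_ifs at * with h <;> omega

lemma wf4_le (b : ℕ) (hb : b < 38416) : wf4 b ≤ 4 := by
  unfold wf4
  omega

lemma wf_le (b : ℕ) (hb : b < 537824) : wf b ≤ 5 := by
  unfold wf
  omega

lemma sum_range_mul (n : ℕ) (F : ℕ → ℕ) : ∀ m : ℕ, ∑ b ∈ range (n * m), F b =
    ∑ a ∈ range m, ∑ b ∈ range n, F (n * a + b) := by
  intro m
  induction m with
  | zero => simp
  | succ m ih =>
    rw [Nat.mul_succ, sum_range_succ, ← ih, sum_range_add]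

/-- sum, by recursion -/
def sumTo (f : ℕ → ℕ) : ℕ → ℕ
  | 0 => 0
  | n + 1 => sumTo f n + f n

lemma sumTo_eq (f : ℕ → ℕ) (n : ℕ) : sumTo f n = ∑ i ∈ range n, f i := by
  induction n with
  | zero => rfl
  | succ n ih => rw [sum_range_succ, ← ih]; rfl

/-- the contribution of all leading digits -/
def gg (b : ℕ) : ℕ :=
  (13 - 13 * b / 38416) * 2 ^ (20 * (wf4 b + 1)) + (13 * b / 38416 + 1) * 2 ^ (20 * wf4 b)

lemma gg_eq (b : ℕ) (hb : b < 38416) :
    ∑ a ∈ range 14, 2 ^ (20 * wf (38416 * a + b)) = gg b := by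
  have hc : 13 * b / 38416 < 13 := by omega
  have h1 : ∀ a ∈ range 14, 2 ^ (20 * wf (38416 * a + b)) =
      if 13 * b / 38416 < a then 2 ^ (20 * (wf4 b + 1)) else 2 ^ (20 * wf4 b) := by
    intro a ha
    rw [wf_digit a b (by simpa using ha) hb]
    split_ifs <;> rfl
  rw [sum_congr rfl h1]
  unfold gg
  generalize 13 * b / 38416 = c at hc
  generalize 2 ^ (20 * (wf4 b + 1)) = x
  generalize 2 ^ (20 * wf4 b) = y
  interval_cases c <;> simp [sum_range_succ] <;> ring

/-- the encoded histogram -/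
def code : ℕ := 7844360309942989297961950168219649

lemma total_aux : sumTo (fun a => sumTo (fun b => gg (196 * a + b)) 196) 196 = code := by
  decide +kernel

lemma total (n1 n2 n3 : ℕ) (h1 : n1 = 196) (h2 : n2 = n1 * n1) (h3 : n3 = n2 * 14) :
    ∑ b ∈ range n3, 2 ^ (20 * wf b) = code := by
  subst h3
  rw [sum_range_mul, sum_comm]
  have e1 : ∀ b ∈ range n2, ∑ a ∈ range 14, 2 ^ (20 * wf (n2 * a + b)) = gg b := by
    intro b hb
    have hb' : b < 38416 := by
      rw [h2, h1] at hb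
      simpa using hb
    have hn : n2 = 38416 := by rw [h2, h1]
    rw [hn]
    exact gg_eq b hb'
  rw [sum_congr rfl e1, ← total_aux, h2, sum_range_mul, sumTo_eq, h1]
  apply sum_congr rfl
  intro a _
  rw [sumTo_eq]

/-- the number of weights equal to `j` among the first `n` -/
def H (n j : ℕ) : ℕ := ((range n).filter (fun b => wf b = j)).card

lemma fiber (n : ℕ) (hn : n ≤ 537824) (G : ℕ → ℚ) :
    ∑ b ∈ range n, G (wf b) = ∑ j ∈ range 6, (H n j : ℚ) * G j := by
  rw [← sum_fiberwise_of_maps_to (s := range n) (t := range 6) (g := wf)]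
  · apply sum_congr rfl
    intro j _
    rw [sum_congr rfl (g := fun _ => G j), sum_const, nsmul_eq_mul]
    · rfl
    · intro b hb
      rw [mem_filter] at hb
      rw [hb.2]
  · intro b hb
    rw [mem_range] at hb
    have := wf_le b (by omega)
    rw [mem_range]
    omega

lemma H_lt (n : ℕ) (hn : n ≤ 537824) (j : ℕ) : H n j < 1048576 := by
  have h1 : H n j ≤ n := by
    unfold H
    calc _ ≤ (range n).card := card_filter_le _ _
      _ = n := card_range _
  omega

lemma H_vals (n : ℕ) (hn : n = 537824) : H n 0 = 1 ∧ H n 1 = 8567 ∧ H n 2 = 130403 ∧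
    H n 3 = 278187 ∧ H n 4 = 114478 ∧ H n 5 = 6188 := by
  have h := fiber n hn.le (fun w => (2 : ℚ) ^ (20 * w))
  have h1 : ((∑ b ∈ range n, 2 ^ (20 * wf b) : ℕ) : ℚ) =
      ((∑ j ∈ range 6, H n j * 2 ^ (20 * j) : ℕ) : ℚ) := by
    rw [Nat.cast_sum, Nat.cast_sum]
    rw [sum_congr rfl (g := fun b => (2 : ℚ) ^ (20 * wf b)) (fun b _ => by norm_num), h]
    apply sum_congr rfl
    intro j _
    norm_num
  have h2 : ∑ b ∈ range n, 2 ^ (20 * wf b) = ∑ j ∈ range 6, H n j * 2 ^ (20 * j) :=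
    Nat.cast_injective h1
  rw [total 196 38416 n rfl (by norm_num) (by rw [hn])] at h2
  simp only [sum_range_succ, sum_range_zero] at h2
  have a0 := H_lt n hn.le 0
  have a1 := H_lt n hn.le 1
  have a2 := H_lt n hn.le 2
  have a3 := H_lt n hn.le 3
  have a4 := H_lt n hn.le 4
  have a5 := H_lt n hn.le 5
  unfold code at h2
  generalize H n 0 = x0 at *
  generalize H n 1 = x1 at *
  generalize H n 2 = x2 at *
  generalize H n 3 = x3 at *
  generalize H n 4 = x4 at *
  generalize H n 5 = x5 at *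
  clear h h1 hn
  norm_num at h2
  omega

end Pool.Agent.T2H79.Ehr
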