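import Pool.Agent.T2H79.Ehr.Hist

/-! # The Ehrhart polynomial of the base 14 simplex of dimension 5 -/

set_option autoImplicit false

namespace Pool.Agent.T2H79.Ehr

open Finset

/-- the polynomial `(x + 5 choose 5)` -/
def c5 (x : ℚ) : ℚ := (x + 1) * (x + 2) * (x + 3) * (x + 4) * (x + 5) / 120

lemma choose_c5 (s : ℕ) : ((s + 5).choose 5 : ℚ) = c5 s := by
  have h1 : (s + 5).descFactorial 5 = 120 * (s + 5).choose 5 :=
    Nat.descFactorial_eq_factorial_mul_choose (s + 5) 5
  have h2 : (s + 5).descFactorial 5 = (s + 1) * ((s + 2) * ((s + 3) * ((s + 4) * (s + 5)))) := by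
    simp [Nat.descFactorial]
  rw [h2] at h1
  have h3 : ((s : ℚ) + 1) * ((s + 2) * ((s + 3) * ((s + 4) * (s + 5)))) =
      120 * ((s + 5).choose 5 : ℚ) := by exact_mod_cast h1
  unfold c5
  linarith

lemma term_c5 (t w : ℕ) (hw : w ≤ 5) :
    ((if w ≤ t then (t - w + 5).choose 5 else 0 : ℕ) : ℚ) = c5 ((t : ℚ) - w) := by
  split_ifs with h
  · obtain ⟨s, rfl⟩ := Nat.exists_eq_add_of_le h
    rw [Nat.add_sub_cancel_left, choose_c5]
    congr 1
    push_cast
    ring
  · have ht : t < 5 := by omega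
    unfold c5
    interval_cases w <;> interval_cases t <;> first | omega | norm_num

lemma ncard_q5 (t : ℕ) : ((latt q5 t).ncard : ℚ) = 1 - 268 / 15 * t + 3955 / 12 * t ^ 2 +
    5833 / 2 * t ^ 3 + 10343 / 12 * t ^ 4 + 67228 / 15 * t ^ 5 := by
  have h1 := ncard_latt q5 t
  rw [h1]
  have hn : QQ q5 = 537824 := QQ5
  generalize QQ q5 = n at hn
  rw [Nat.cast_sum]
  rw [sum_congr rfl (g := fun b => c5 ((t : ℚ) - wf b))]
  · rw [fiber n hn.le (fun w => c5 ((t : ℚ) - w))]
    obtain ⟨a0, a1, a2, a3, a4, a5⟩ := H_vals n hn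
    rw [sum_range_succ, sum_range_succ, sum_range_succ, sum_range_succ, sum_range_succ,
      sum_range_succ, sum_range_zero, a0, a1, a2, a3, a4, a5]
    unfold c5
    push_cast
    ring
  · intro b hb
    rw [mem_range] at hb
    rw [wt5]
    exact term_c5 t (wf b) (wf_le b (by omega))

end Pool.Agent.T2H79.Ehr
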